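import Pool.Agent.Helper36.P6.Defs

/-!
# Non-separating triangles at an edge (modules F1 and F2 of MP_dc774f_co)
-/

set_option autoImplicit false

namespace Pool.Agent.Helper36.P6

open SimpleGraph
open Pool.Agent.Helper36.BL (IsMinor K5Free reach_mono star_connected)

/-- A connected set stays connected when a neighbour is added. -/
lemma connected_insert_of_adj {V : Type} (G : SimpleGraph V) {K : Set V} {w u : V}
    (hK : (G.induce K).Connected) (hu : u ∈ K) (hwu : G.Adj w u) :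
    (G.induce (insert w K)).Connected := by
  have hsub : K ⊆ insert w K := Set.subset_insert w K
  have key : ∀ x (hx : x ∈ insert w K),
      (G.induce (insert w K)).Reachable ⟨w, Set.mem_insert w K⟩ ⟨x, hx⟩ := by
    intro x hx
    have h1 : (G.induce (insert w K)).Reachable ⟨w, Set.mem_insert w K⟩ ⟨u, hsub hu⟩ :=
      Adj.reachable (show (G.induce (insert w K)).Adj ⟨w, Set.mem_insert w K⟩ ⟨u, hsub hu⟩ from hwu)
    rcases Set.mem_insert_iff.mp hx with rfl | hxK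
    · exact Reachable.refl _
    · exact h1.trans (reach_mono G hsub hu hxK (hK.preconnected ⟨u, hu⟩ ⟨x, hxK⟩))
  exact { preconnected := fun x y => (key x x.2).symm.trans (key y y.2)
          nonempty := ⟨⟨w, Set.mem_insert w K⟩⟩ }

lemma exists_face_aux {V : Type} [Fintype V] (G : SimpleGraph V) (h3 : Conn3 G)
    (hF : ∀ a b w K, G.Adj a b → G.Adj a w → G.Adj b w → Comp G {a, b, w} K →
      ∃ z ∈ K, G.Adj a z ∧ G.Adj b z)
    (a b : V) (hab : G.Adj a b) (m : ℕ) : ∀ (w : V) (K : Set V), K.ncard ≤ m →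
      G.Adj a w → G.Adj b w → Comp G {a, b, w} K → ∃ z ∈ K, Fac G a b z := by
  induction m with
  | zero =>
    intro w K hm haw hbw hK
    obtain ⟨z, hz, _⟩ := hF a b w K hab haw hbw hK
    have : K.ncard = 0 := by omega
    rw [Set.ncard_eq_zero (Set.toFinite K)] at this
    rw [this] at hz
    exact absurd hz (Set.notMem_empty z)
  | succ m ih =>
    intro w K hm haw hbw hK
    obtain ⟨w', hw'K, haw', hbw'⟩ := hF a b w K hab haw hbw hK
    by_cases hfac : Fac G a b w'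
    · exact ⟨w', hw'K, hfac⟩
    have hKX := Set.disjoint_left.mp hK.2.1 hw'K
    have hw'a : w' ≠ a := fun h => hKX (by simp [h])
    have hw'b : w' ≠ b := fun h => hKX (by simp [h])
    have hw'w : w' ≠ w := fun h => hKX (by simp [h])
    obtain ⟨K₁, hK₁, z', hz'a, hz'b, hz'w, hz'K⟩ : ∃ K₁, Comp G {a, b, w'} K₁ ∧
        ∃ z', z' ≠ a ∧ z' ≠ b ∧ z' ≠ w' ∧ z' ∉ K₁ := by
      by_contra hcon
      apply hfac
      refine ⟨hab, haw', hbw', ?_⟩
      intro K₁ hK₁ z hza hzb hzw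
      by_contra hz
      exact hcon ⟨K₁, hK₁, z, hza, hzb, hzw, hz⟩
    obtain ⟨K₂, hK₂, hwK₂⟩ : ∃ K₂, Comp G {a, b, w'} K₂ ∧ w ∉ K₂ := by
      by_cases hwK₁ : w ∈ K₁
      · obtain ⟨K₂, hK₂, hz'K₂⟩ := exists_comp G {a, b, w'} z' (by
          simp only [Set.mem_insert_iff, Set.mem_singleton_iff]
          rintro (h | h | h)
          · exact hz'a h
          · exact hz'b h
          · exact hz'w h)
        refine ⟨K₂, hK₂, fun hwK₂ => ?_⟩
        exact hz'K (hK₁.subset K₂ hK₂.1 hK₂.2.1 w hwK₂ hwK₁ hz'K₂)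
      · exact ⟨K₁, hK₁, hwK₁⟩
    have hw'K₂ : w' ∉ K₂ := fun h => Set.disjoint_left.mp hK₂.2.1 h (by simp)
    have haK₂ : a ∉ K₂ := fun h => Set.disjoint_left.mp hK₂.2.1 h (by simp)
    have hbK₂ : b ∉ K₂ := fun h => Set.disjoint_left.mp hK₂.2.1 h (by simp)
    obtain ⟨u, huK₂, hw'u⟩ : ∃ u ∈ K₂, G.Adj w' u := by
      by_contra hcon
      apply hw'K₂
      apply h3 a b K₂ _ w' hw'a hw'b
      refine ⟨hK₂.1, ?_, ?_⟩
      · rw [Set.disjoint_left]
        intro x hx hx'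
        rcases hx' with rfl | hx'
        · exact haK₂ hx
        · rw [Set.mem_singleton_iff] at hx'
          subst hx'
          exact hbK₂ hx
      · intro u hu v huv
        rcases hK₂.2.2 u hu v huv with h | h
        · exact Or.inl h
        · rcases h with h | h | h
          · exact Or.inr (Or.inl h)
          · exact Or.inr (Or.inr h)
          · rw [Set.mem_singleton_iff] at h
            subst h
            exact absurd ⟨u, hu, huv.symm⟩ hcon
    have hsub : insert w' K₂ ⊆ K := by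
      apply hK.subset (insert w' K₂) (connected_insert_of_adj G hK₂.1 huK₂ hw'u) _ w'
        (Set.mem_insert w' K₂) hw'K
      rw [Set.disjoint_left]
      intro x hx hx'
      rcases hx with rfl | hx
      · exact hKX hx'
      · rcases hx' with h | h | h
        · subst h; exact haK₂ hx
        · subst h; exact hbK₂ hx
        · rw [Set.mem_singleton_iff] at h
          subst h; exact hwK₂ hx
    have hcard : K₂.ncard < K.ncard := by
      apply Set.ncard_lt_ncard _ (Set.toFinite K)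
      refine ⟨fun x hx => hsub (Set.mem_insert_of_mem w' hx), fun h => ?_⟩
      exact hw'K₂ (h hw'K)
    obtain ⟨z, hz, hfz⟩ := ih w' K₂ (by omega) haw' hbw' hK₂
    exact ⟨z, hsub (Set.mem_insert_of_mem w' hz), hfz⟩

/-- JOB F1 -/
theorem exists_face {V : Type} [Fintype V] (G : SimpleGraph V) (h3 : Conn3 G)
    (hF : ∀ a b w K, G.Adj a b → G.Adj a w → G.Adj b w → Comp G {a, b, w} K →
      ∃ z ∈ K, G.Adj a z ∧ G.Adj b z)
    (a b w : V) (K : Set V) (hab : G.Adj a b) (haw : G.Adj a w) (hbw : G.Adj b w)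
    (hK : Comp G {a, b, w} K) : ∃ z ∈ K, Fac G a b z :=
  exists_face_aux G h3 hF a b hab K.ncard w K le_rfl haw hbw hK

/-- (A): two of the three apexes are adjacent or see a common component. -/
lemma link_comp {V : Type} (G : SimpleGraph V) (X : Set V) (a b wi wj wk : V)
    (hX : X = {a, b, wi, wj, wk}) (hij : wi ≠ wj) (hik : wi ≠ wk) (hjk : wj ≠ wk)
    (hia : wi ≠ a) (hib : wi ≠ b) (hja : wj ≠ a) (hjb : wj ≠ b)
    (hf : Fac G a b wk) (hadj : ¬ G.Adj wi wj) :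
    ∃ K, Comp G X K ∧ (∃ u ∈ K, G.Adj wi u) ∧ (∃ u ∈ K, G.Adj wj u) := by
  by_contra hcon
  push Not at hcon
  obtain ⟨K₀, hK₀, hiK₀⟩ := exists_comp G {a, b, wk} wi (by
    simp only [Set.mem_insert_iff, Set.mem_singleton_iff]
    rintro (h | h | h)
    · exact hia h
    · exact hib h
    · exact hik h)
  have hjK₀ : wj ∈ K₀ := hf.2.2.2 K₀ hK₀ wj hja hjb hjk
  have key : ∀ (x y : K₀), (G.induce K₀).Walk x y →
      ((x : V) = wi ∨ ∃ K, Comp G X K ∧ (∃ u ∈ K, G.Adj wi u) ∧ (x : V) ∈ K) →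
      ((y : V) = wi ∨ ∃ K, Comp G X K ∧ (∃ u ∈ K, G.Adj wi u) ∧ (y : V) ∈ K) := by
    intro x y p
    induction p with
    | nil => exact fun h => h
    | @cons u v t hadj' p ih =>
      intro hu
      apply ih
      have huv : G.Adj (u : V) (v : V) := hadj'
      by_cases hvX : (v : V) ∈ X
      · have hv' := Set.disjoint_left.mp hK₀.2.1 v.2
        rw [hX] at hvX
        simp only [Set.mem_insert_iff, Set.mem_singleton_iff] at hvX hv'
        push Not at hv'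
        rcases hvX with h | h | h | h | h
        · exact absurd h hv'.1
        · exact absurd h hv'.2.1
        · exact Or.inl h
        · exfalso
          rw [h] at huv
          rcases hu with hu | ⟨K, hK, hKi, huK⟩
          · rw [hu] at huv; exact hadj huv
          · exact hcon K hK hKi u huK huv.symm
        · exact absurd h hv'.2.2
      · right
        rcases hu with hu | ⟨K, hK, hKi, huK⟩
        · obtain ⟨K', hK', hvK'⟩ := exists_comp G X (v : V) hvX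
          exact ⟨K', hK', ⟨v, hvK', hu ▸ huv⟩, hvK'⟩
        · rcases hK.2.2 u huK v huv with h | h
          · exact ⟨K, hK, hKi, h⟩
          · exact absurd h hvX
  obtain ⟨p⟩ := hK₀.1.preconnected ⟨wi, hiK₀⟩ ⟨wj, hjK₀⟩
  rcases key _ _ p (Or.inl rfl) with h | ⟨K, hK, _, hjK⟩
  · exact hij h.symm
  · apply Set.disjoint_left.mp hK.2.1 hjK
    rw [hX]
    simp

/-- a set `B` outside `X` linking `wi` to `wj` -/
lemma link_set {V : Type} (G : SimpleGraph V) (X : Set V) (a b wi wj wk : V)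
    (hX : X = {a, b, wi, wj, wk}) (hij : wi ≠ wj) (hik : wi ≠ wk) (hjk : wj ≠ wk)
    (hia : wi ≠ a) (hib : wi ≠ b) (hja : wj ≠ a) (hjb : wj ≠ b)
    (hf : Fac G a b wk) :
    ∃ B : Set V, (G.induce (insert wi B)).Connected ∧ Disjoint B X ∧
      (∃ x ∈ insert wi B, G.Adj x wj) ∧
      (B = ∅ ∨ (Comp G X B ∧ (∃ u ∈ B, G.Adj wi u) ∧ (∃ u ∈ B, G.Adj wj u))) := by
  by_cases hadj : G.Adj wi wj
  · refine ⟨∅, ?_, Set.empty_disjoint X, ⟨wi, Set.mem_insert wi ∅, hadj⟩, Or.inl rfl⟩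
    apply star_connected G _ wi (Set.mem_insert wi ∅)
    intro x hx hne
    rcases hx with rfl | hx
    · exact absurd rfl hne
    · exact absurd hx (Set.notMem_empty x)
  · obtain ⟨K, hK, ⟨u, hu, hiu⟩, ⟨v, hv, hjv⟩⟩ :=
      link_comp G X a b wi wj wk hX hij hik hjk hia hib hja hjb hf hadj
    refine ⟨K, connected_insert_of_adj G hK.1 hu hiu, hK.2.1,
      ⟨v, Set.mem_insert_of_mem wi hv, hjv.symm⟩, Or.inr ⟨hK, ⟨u, hu, hiu⟩, ⟨v, hv, hjv⟩⟩⟩

lemma Comp.eq_of_mem {V : Type} {G : SimpleGraph V} {X K K' : Set V} (h : Comp G X K)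
    (h' : Comp G X K') {x : V} (hx : x ∈ K) (hx' : x ∈ K') : K = K' :=
  Set.Subset.antisymm (h'.subset K h.1 h.2.1 x hx hx') (h.subset K' h'.1 h'.2.1 x hx' hx)

lemma isMinor_K5 {V : Type} (G : SimpleGraph V) (B₀ B₁ B₂ B₃ B₄ : Set V)
    (c₀ : (G.induce B₀).Connected) (c₁ : (G.induce B₁).Connected) (c₂ : (G.induce B₂).Connected)
    (c₃ : (G.induce B₃).Connected) (c₄ : (G.induce B₄).Connected)
    (d₀₁ : Disjoint B₀ B₁) (d₀₂ : Disjoint B₀ B₂) (d₀₃ : Disjoint B₀ B₃) (d₀₄ : Disjoint B₀ B₄)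
    (d₁₂ : Disjoint B₁ B₂) (d₁₃ : Disjoint B₁ B₃) (d₁₄ : Disjoint B₁ B₄)
    (d₂₃ : Disjoint B₂ B₃) (d₂₄ : Disjoint B₂ B₄) (d₃₄ : Disjoint B₃ B₄)
    (e₀₁ : ∃ x ∈ B₀, ∃ y ∈ B₁, G.Adj x y) (e₀₂ : ∃ x ∈ B₀, ∃ y ∈ B₂, G.Adj x y)
    (e₀₃ : ∃ x ∈ B₀, ∃ y ∈ B₃, G.Adj x y) (e₀₄ : ∃ x ∈ B₀, ∃ y ∈ B₄, G.Adj x y)
    (e₁₂ : ∃ x ∈ B₁, ∃ y ∈ B₂, G.Adj x y) (e₁₃ : ∃ x ∈ B₁, ∃ y ∈ B₃, G.Adj x y)
    (e₁₄ : ∃ x ∈ B₁, ∃ y ∈ B₄, G.Adj x y) (e₂₃ : ∃ x ∈ B₂, ∃ y ∈ B₃, G.Adj x y)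
    (e₂₄ : ∃ x ∈ B₂, ∃ y ∈ B₄, G.Adj x y) (e₃₄ : ∃ x ∈ B₃, ∃ y ∈ B₄, G.Adj x y) :
    IsMinor (⊤ : SimpleGraph (Fin 5)) G := by
  have sw : ∀ {A B : Set V}, (∃ x ∈ A, ∃ y ∈ B, G.Adj x y) → ∃ x ∈ B, ∃ y ∈ A, G.Adj x y := by
    rintro A B ⟨x, hx, y, hy, h⟩
    exact ⟨y, hy, x, hx, h.symm⟩
  refine ⟨![B₀, B₁, B₂, B₃, B₄], ?_, ?_, ?_⟩
  · intro w
    fin_cases w
    · exact c₀
    · exact c₁
    · exact c₂
    · exact c₃
    · exact c₄
  · intro w w' hne
    fin_cases w <;> fin_cases w' <;>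
      first
      | exact absurd rfl hne
      | exact d₀₁ | exact d₀₂ | exact d₀₃ | exact d₀₄ | exact d₁₂ | exact d₁₃ | exact d₁₄
      | exact d₂₃ | exact d₂₄ | exact d₃₄
      | exact d₀₁.symm | exact d₀₂.symm | exact d₀₃.symm | exact d₀₄.symm | exact d₁₂.symm
      | exact d₁₃.symm | exact d₁₄.symm | exact d₂₃.symm | exact d₂₄.symm | exact d₃₄.symm
  · intro w w' hadj
    have hne : w ≠ w' := hadj.ne
    clear hadj
    fin_cases w <;> fin_cases w' <;>
      first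
      | exact absurd rfl hne
      | exact e₀₁ | exact e₀₂ | exact e₀₃ | exact e₀₄ | exact e₁₂ | exact e₁₃ | exact e₁₄
      | exact e₂₃ | exact e₂₄ | exact e₃₄
      | exact sw e₀₁ | exact sw e₀₂ | exact sw e₀₃ | exact sw e₀₄ | exact sw e₁₂
      | exact sw e₁₃ | exact sw e₁₄ | exact sw e₂₃ | exact sw e₂₄ | exact sw e₃₄

lemma isMinor_K33 {V : Type} (G : SimpleGraph V) (A B : Fin 3 → Set V)
    (cA : ∀ i, (G.induce (A i)).Connected) (cB : ∀ i, (G.induce (B i)).Connected)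
    (dA : ∀ i j, i ≠ j → Disjoint (A i) (A j)) (dB : ∀ i j, i ≠ j → Disjoint (B i) (B j))
    (dAB : ∀ i j, Disjoint (A i) (B j))
    (e : ∀ i j, ∃ x ∈ A i, ∃ y ∈ B j, G.Adj x y) :
    IsMinor K33 G := by
  refine ⟨Sum.elim A B, ?_, ?_, ?_⟩
  · rintro (i | i)
    · exact cA i
    · exact cB i
  · rintro (i | i) (j | j) hne
    · exact dA i j (fun h => hne (by rw [h]))
    · exact dAB i j
    · exact (dAB j i).symm
    · exact dB i j (fun h => hne (by rw [h]))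
  · rintro (i | i) (j | j) hadj
    · simp [K33] at hadj
    · exact e i j
    · obtain ⟨x, hx, y, hy, h⟩ := e j i
      exact ⟨y, hy, x, hx, h.symm⟩
    · simp [K33] at hadj

lemma connected_singleton {V : Type} (G : SimpleGraph V) (a : V) :
    (G.induce ({a} : Set V)).Connected :=
  star_connected G {a} a rfl (fun x hx hne => absurd hx hne)

/-- JOB F2 -/
theorem not_three_faces {V : Type} [Fintype V] (G : SimpleGraph V) (hK5 : K5Free G)
    (hK33 : K33Free G) (h3 : Conn3 G) (a b w₁ w₂ w₃ : V)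
    (h1 : Fac G a b w₁) (h2 : Fac G a b w₂) (h3' : Fac G a b w₃) (h12 : w₁ ≠ w₂) (h13 : w₁ ≠ w₃)
    (h23 : w₂ ≠ w₃) : False := by
  have hab := h1.1
  have hab' : a ≠ b := hab.ne
  have h1a : w₁ ≠ a := h1.2.1.ne.symm
  have h1b : w₁ ≠ b := h1.2.2.1.ne.symm
  have h2a : w₂ ≠ a := h2.2.1.ne.symm
  have h2b : w₂ ≠ b := h2.2.2.1.ne.symm
  have h3a : w₃ ≠ a := h3'.2.1.ne.symm
  have h3b : w₃ ≠ b := h3'.2.2.1.ne.symm
  set X : Set V := {a, b, w₁, w₂, w₃} with hX
  -- case (B)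
  have hB : ∀ K, Comp G X K → (∃ u ∈ K, G.Adj w₁ u) → (∃ u ∈ K, G.Adj w₂ u) →
      (∃ u ∈ K, G.Adj w₃ u) → False := by
    rintro K hK ⟨u₁, hu₁, e₁⟩ ⟨u₂, hu₂, e₂⟩ ⟨u₃, hu₃, e₃⟩
    have hdisj := Set.disjoint_left.mp hK.2.1
    have hnot : ∀ x ∈ X, x ∉ K := fun x hx hxK => hdisj hxK hx
    have haK : a ∉ K := hnot a (by simp [hX])
    have hbK : b ∉ K := hnot b (by simp [hX])
    have h1K : w₁ ∉ K := hnot w₁ (by simp [hX])
    have h2K : w₂ ∉ K := hnot w₂ (by simp [hX])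
    have h3K : w₃ ∉ K := hnot w₃ (by simp [hX])
    apply hK33
    refine isMinor_K33 G ![{a}, {b}, K] ![{w₁}, {w₂}, {w₃}] ?_ ?_ ?_ ?_ ?_ ?_
    · intro i
      fin_cases i
      · exact connected_singleton G a
      · exact connected_singleton G b
      · exact hK.1
    · intro i
      fin_cases i
      · exact connected_singleton G w₁
      · exact connected_singleton G w₂
      · exact connected_singleton G w₃
    · intro i j hij
      have d1 : Disjoint ({a} : Set V) {b} := by simpa using hab'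
      have d2 : Disjoint ({a} : Set V) K := by simpa using haK
      have d3 : Disjoint ({b} : Set V) K := by simpa using hbK
      fin_cases i <;> fin_cases j <;>
        first
        | exact absurd rfl hij
        | exact d1 | exact d2 | exact d3 | exact d1.symm | exact d2.symm | exact d3.symm
    · intro i j hij
      have d1 : Disjoint ({w₁} : Set V) {w₂} := by simpa using h12
      have d2 : Disjoint ({w₁} : Set V) {w₃} := by simpa using h13
      have d3 : Disjoint ({w₂} : Set V) {w₃} := by simpa using h23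
      fin_cases i <;> fin_cases j <;>
        first
        | exact absurd rfl hij
        | exact d1 | exact d2 | exact d3 | exact d1.symm | exact d2.symm | exact d3.symm
    · intro i j
      have da1 : Disjoint ({a} : Set V) {w₁} := by simpa using h1a.symm
      have da2 : Disjoint ({a} : Set V) {w₂} := by simpa using h2a.symm
      have da3 : Disjoint ({a} : Set V) {w₃} := by simpa using h3a.symm
      have db1 : Disjoint ({b} : Set V) {w₁} := by simpa using h1b.symm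
      have db2 : Disjoint ({b} : Set V) {w₂} := by simpa using h2b.symm
      have db3 : Disjoint ({b} : Set V) {w₃} := by simpa using h3b.symm
      have dK1 : Disjoint K {w₁} := by simpa using h1K
      have dK2 : Disjoint K {w₂} := by simpa using h2K
      have dK3 : Disjoint K {w₃} := by simpa using h3K
      fin_cases i <;> fin_cases j <;>
        first
        | exact da1 | exact da2 | exact da3 | exact db1 | exact db2 | exact db3
        | exact dK1 | exact dK2 | exact dK3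
    · intro i j
      fin_cases i <;> fin_cases j
      · exact ⟨a, rfl, w₁, rfl, h1.2.1⟩
      · exact ⟨a, rfl, w₂, rfl, h2.2.1⟩
      · exact ⟨a, rfl, w₃, rfl, h3'.2.1⟩
      · exact ⟨b, rfl, w₁, rfl, h1.2.2.1⟩
      · exact ⟨b, rfl, w₂, rfl, h2.2.2.1⟩
      · exact ⟨b, rfl, w₃, rfl, h3'.2.2.1⟩
      · exact ⟨u₁, hu₁, w₁, rfl, e₁.symm⟩
      · exact ⟨u₂, hu₂, w₂, rfl, e₂.symm⟩
      · exact ⟨u₃, hu₃, w₃, rfl, e₃.symm⟩
  -- the linking sets
  obtain ⟨C₁₂, c₁₂, d₁₂, ⟨x₁₂, hx₁₂, e₁₂⟩, k₁₂⟩ := link_set G X a b w₁ w₂ w₃ hX h12 h13 h23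
    h1a h1b h2a h2b h3'
  obtain ⟨C₂₃, c₂₃, d₂₃, ⟨x₂₃, hx₂₃, e₂₃⟩, k₂₃⟩ := link_set G X a b w₂ w₃ w₁
    (by rw [hX]; ext x; simp only [Set.mem_insert_iff, Set.mem_singleton_iff]; tauto)
    h23 h12.symm h13.symm h2a h2b h3a h3b h1
  obtain ⟨C₃₁, c₃₁, d₃₁, ⟨x₃₁, hx₃₁, e₃₁⟩, k₃₁⟩ := link_set G X a b w₃ w₁ w₂
    (by rw [hX]; ext x; simp only [Set.mem_insert_iff, Set.mem_singleton_iff]; tauto)
    h13.symm h23.symm h12 h3a h3b h1a h1b h2
  have haX : a ∈ X := by simp [hX]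
  have hbX : b ∈ X := by simp [hX]
  have h1X : w₁ ∈ X := by simp [hX]
  have h2X : w₂ ∈ X := by simp [hX]
  have h3X : w₃ ∈ X := by simp [hX]
  have n₁₂ : ∀ x ∈ X, x ∉ C₁₂ := fun x hx h => Set.disjoint_left.mp d₁₂ h hx
  have n₂₃ : ∀ x ∈ X, x ∉ C₂₃ := fun x hx h => Set.disjoint_left.mp d₂₃ h hx
  have n₃₁ : ∀ x ∈ X, x ∉ C₃₁ := fun x hx h => Set.disjoint_left.mp d₃₁ h hx
  -- pairwise disjointness of the linking sets
  have q₁ : Disjoint C₁₂ C₂₃ := by
    rcases k₁₂ with h | ⟨hc, hi, hj⟩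
    · rw [h]; exact Set.empty_disjoint _
    rcases k₂₃ with h | ⟨hc', hi', hj'⟩
    · rw [h]; exact Set.disjoint_empty _
    rw [Set.disjoint_left]
    intro x hx hx'
    have := hc.eq_of_mem hc' hx hx'
    subst this
    exact hB _ hc hi hj hj'
  have q₂ : Disjoint C₁₂ C₃₁ := by
    rcases k₁₂ with h | ⟨hc, hi, hj⟩
    · rw [h]; exact Set.empty_disjoint _
    rcases k₃₁ with h | ⟨hc', hi', hj'⟩
    · rw [h]; exact Set.disjoint_empty _
    rw [Set.disjoint_left]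
    intro x hx hx'
    have := hc.eq_of_mem hc' hx hx'
    subst this
    exact hB _ hc hi hj hi'
  have q₃ : Disjoint C₂₃ C₃₁ := by
    rcases k₂₃ with h | ⟨hc, hi, hj⟩
    · rw [h]; exact Set.empty_disjoint _
    rcases k₃₁ with h | ⟨hc', hi', hj'⟩
    · rw [h]; exact Set.disjoint_empty _
    rw [Set.disjoint_left]
    intro x hx hx'
    have := hc.eq_of_mem hc' hx hx'
    subst this
    exact hB _ hc hj' hi hj
  have ins : ∀ {x y : V} {C C' : Set V}, x ≠ y → x ∉ C' → y ∉ C → Disjoint C C' →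
      Disjoint (insert x C) (insert y C') := by
    intro x y C C' hxy hx hy hd
    rw [Set.disjoint_left]
    rintro z (rfl | hz) (hz' | hz')
    · exact hxy hz'
    · exact hx hz'
    · subst hz'; exact hy hz
    · exact Set.disjoint_left.mp hd hz hz'
  have sing : ∀ {x y : V} {C : Set V}, x ≠ y → x ∉ C → Disjoint ({x} : Set V) (insert y C) := by
    intro x y C hxy hx
    rw [Set.disjoint_singleton_left]
    rintro (h | h)
    · exact hxy h
    · exact hx h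
  apply hK5
  refine isMinor_K5 G {a} {b} (insert w₁ C₁₂) (insert w₂ C₂₃) (insert w₃ C₃₁)
    (connected_singleton G a) (connected_singleton G b) c₁₂ c₂₃ c₃₁
    (by simpa using hab')
    (sing h1a.symm (n₁₂ a haX)) (sing h2a.symm (n₂₃ a haX)) (sing h3a.symm (n₃₁ a haX))
    (sing h1b.symm (n₁₂ b hbX)) (sing h2b.symm (n₂₃ b hbX)) (sing h3b.symm (n₃₁ b hbX))
    (ins h12 (n₂₃ _ h1X) (n₁₂ _ h2X) q₁)
    (ins h13 (n₃₁ _ h1X) (n₁₂ _ h3X) q₂)
    (ins h23 (n₃₁ _ h2X) (n₂₃ _ h3X) q₃)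
    ⟨a, rfl, b, rfl, hab⟩
    ⟨a, rfl, w₁, Set.mem_insert _ _, h1.2.1⟩
    ⟨a, rfl, w₂, Set.mem_insert _ _, h2.2.1⟩
    ⟨a, rfl, w₃, Set.mem_insert _ _, h3'.2.1⟩
    ⟨b, rfl, w₁, Set.mem_insert _ _, h1.2.2.1⟩
    ⟨b, rfl, w₂, Set.mem_insert _ _, h2.2.2.1⟩
    ⟨b, rfl, w₃, Set.mem_insert _ _, h3'.2.2.1⟩
    ⟨x₁₂, hx₁₂, w₂, Set.mem_insert _ _, e₁₂⟩
    ⟨w₁, Set.mem_insert _ _, x₃₁, hx₃₁, e₃₁.symm⟩
    ⟨x₂₃, hx₂₃, w₃, Set.mem_insert _ _, e₂₃⟩

end Pool.Agent.Helper36.P6
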